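import Mathlib
import Pool.Agent.Y626.CT.Cut

set_option autoImplicit false

/-!
# Contiguous pc-degrees in every nonzero Turing degree

The starting file `Contiguous` shows that the pc-degree of every semirecursive set `B` which is not
c.e. is a single degree for the e-reducibility given by the operators which are both s-operators and
pc-operators, and that there is such a set. Here the sets with a contiguous pc-degree are located:
every nonzero Turing degree contains one, which is moreover co-c.e. if the Turing degree is given by
a c.e. set, and there are continuum many of them with pairwise different enumeration degrees.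

Proof: let `lc A` be the set of the binary words to the left of the characteristic sequence of `A`.
Both `lc A` and its complement are semirecursive and Turing equivalent to `A`, and at least one of
them is not c.e. unless `A` is computable; if `A` is c.e., then so is `lc A`. For the last part,
take a maximal family of semirecursive sets which are not c.e. and pairwise not e-equivalent.
-/

namespace Pool.Agent.Results.MP_9a6b8c_lc.EveryTuringDegree

open Pool.Agent.Results.MP_9a6b8c_lc.Contiguous Pool.Agent.Y626.CT
open Cardinal
open scoped Computability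

/-- The classes of the operators which are both s-operators and pc-operators, and of the
pc-operators, give two distinct proper e-reducibilities `≤_y ⊆ ≤_z` such that

1. the `z`-degree of every semirecursive set which is not c.e. is `y`-contiguous;
2. for every noncomputable set `A` there is a semirecursive set `B` which is Turing equivalent to `A`
   and has a `y`-contiguous `z`-degree; if `A` is c.e., then `B` can be taken co-c.e.;
3. there are continuum many semirecursive sets with `y`-contiguous `z`-degrees and with pairwise
   different enumeration degrees. -/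
theorem result :
    IsERed (sOps ∩ pcOps) ∧ IsERed pcOps ∧ IsProper (sOps ∩ pcOps) ∧ IsProper pcOps ∧
    (∀ A B : Set ℕ, Red (sOps ∩ pcOps) A B → Red pcOps A B) ∧
    (∃ A B : Set ℕ, Red pcOps A B ∧ ¬ Red (sOps ∩ pcOps) A B) ∧
    (∀ B : Set ℕ, Semirecursive B → ¬ REPred (fun x => x ∈ B) →
      IsContiguous (sOps ∩ pcOps) pcOps B) ∧
    (∀ A : Set ℕ, ¬ ComputablePred (fun x => x ∈ A) → ∃ B : Set ℕ, (chi B ≡ᵀ chi A) ∧
      Semirecursive B ∧ IsContiguous (sOps ∩ pcOps) pcOps B ∧
      (REPred (fun x => x ∈ A) → REPred fun x => x ∉ B)) ∧
    ∃ S : Set (Set ℕ), #S = 𝔠 ∧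
      (∀ B ∈ S, Semirecursive B ∧ IsContiguous (sOps ∩ pcOps) pcOps B) ∧
      ∀ B ∈ S, ∀ C ∈ S, B ≠ C → ¬ Eqv {Ψ | IsOp Ψ} B C := by
  obtain ⟨h1, h2, h3, h4, h5, h6, h7, -⟩ := Contiguous.result
  refine ⟨h1, h2, h3, h4, h5, h6, h7, ?_, ?_⟩
  · intro A hA
    obtain ⟨B, hB1, hB2, hB3, hB4⟩ := exists_in_degree hA
    exact ⟨B, hB1, hB2, h7 B hB2 hB3, fun h => hB4 (re_lc h)⟩
  · obtain ⟨S, hS1, hS2, hS3⟩ := exists_continuum {Ψ | IsOp Ψ} fun _ h => h
    exact ⟨S, hS1, fun B hB => ⟨(hS2 B hB).1, h7 B (hS2 B hB).1 (hS2 B hB).2⟩, hS3⟩

end Pool.Agent.Results.MP_9a6b8c_lc.EveryTuringDegree
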